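import Mathlib

set_option autoImplicit false

open MvPolynomial

namespace Pool.Agent.H.MP_a79530_al

variable {K : Type*} [Field K]

/-- generators -/
noncomputable def gens (K : Type*) [Field K] : Set (MvPolynomial (Fin 6) K) :=
  {X 0 * X 1, X 0 * X 2, X 1 * X 2, X 0 * X 3, X 1 * X 4, X 2 * X 5, X 3 * X 3, X 4 * X 4, X 5 * X 5}

theorem gens_hom : ∀ f ∈ gens K, f.IsHomogeneous 2 := by
  rintro _ (rfl | rfl | rfl | rfl | rfl | rfl | rfl | rfl | rfl) <;>
    exact (isHomogeneous_X K _).mul (isHomogeneous_X K _)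

theorem le_sq : Ideal.span (gens K) ≤ idealOfVars (Fin 6) K ^ 2 := by
  rw [Ideal.span_le, sq]
  rintro _ (rfl | rfl | rfl | rfl | rfl | rfl | rfl | rfl | rfl) <;>
    exact Ideal.mul_mem_mul (Ideal.subset_span ⟨_, rfl⟩) (Ideal.subset_span ⟨_, rfl⟩)

theorem m_max : (idealOfVars (Fin 6) K).IsMaximal := by
  have : idealOfVars (Fin 6) K = RingHom.ker (constantCoeff : MvPolynomial (Fin 6) K →+* K) := by
    ext f
    rw [← pow_one (idealOfVars _ _), mem_pow_idealOfVars_iff', RingHom.mem_ker, constantCoeff_eq]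
    simp [Finsupp.degree_eq_zero_iff]
  rw [this]
  exact RingHom.ker_isMaximal_of_surjective _ fun c => ⟨C c, by simp⟩

theorem colon_eq (J : Ideal (MvPolynomial (Fin 6) K)) (f : MvPolynomial (Fin 6) K) (hf : f ∉ J)
    (h : ∀ i, X i * f ∈ J) : J.colon {f} = idealOfVars (Fin 6) K := by
  refine (m_max.eq_of_le (fun e => hf ?_) (Ideal.span_le.2 ?_)).symm
  · simpa using Submodule.mem_colon_singleton.1 ((Ideal.eq_top_iff_one _).1 e)
  · rintro _ ⟨i, rfl⟩
    exact Submodule.mem_colon_singleton.2 (h i)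

theorem mem_span (f : MvPolynomial (Fin 6) K) : f ∈ Ideal.span (gens K) ↔ ∀ m ∈ f.support,
    (1 ≤ m 0 ∧ 1 ≤ m 1) ∨ (1 ≤ m 0 ∧ 1 ≤ m 2) ∨ (1 ≤ m 1 ∧ 1 ≤ m 2) ∨ (1 ≤ m 0 ∧ 1 ≤ m 3) ∨
    (1 ≤ m 1 ∧ 1 ≤ m 4) ∨ (1 ≤ m 2 ∧ 1 ≤ m 5) ∨ 2 ≤ m 3 ∨ 2 ≤ m 4 ∨ 2 ≤ m 5 := by
  have : gens K = (fun s => monomial s (1 : K)) ''
      {Finsupp.single 0 1 + Finsupp.single 1 1, Finsupp.single 0 1 + Finsupp.single 2 1,
        Finsupp.single 1 1 + Finsupp.single 2 1, Finsupp.single 0 1 + Finsupp.single 3 1,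
        Finsupp.single 1 1 + Finsupp.single 4 1, Finsupp.single 2 1 + Finsupp.single 5 1,
        Finsupp.single 3 1 + Finsupp.single 3 1, Finsupp.single 4 1 + Finsupp.single 4 1,
        Finsupp.single 5 1 + Finsupp.single 5 1} := by
    simp only [gens, Set.image_insert_eq, Set.image_singleton, X, monomial_mul, mul_one]
  rw [this, mem_ideal_span_monomial_image]
  refine forall₂_congr fun m _ => ?_
  simp [Finsupp.le_def, Fin.forall_fin_succ]

theorem three_le (f : MvPolynomial (Fin 6) K) (d : ℕ) (hd : f.IsHomogeneous d)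
    (h : ((Ideal.span (gens K)).colon {f}).IsPrime) : 3 ≤ d := by
  have h0 : f ∉ Ideal.span (gens K) := fun hf => h.ne_top ((Ideal.eq_top_iff_one _).2
    (Submodule.mem_colon_singleton.2 (by simpa using hf)))
  have h1 : ∀ i, X i * X i ∈ gens K → X i * f ∈ Ideal.span (gens K) := fun i hi =>
    Submodule.mem_colon_singleton.1 ((or_self_iff.1 (h.mem_or_mem
      (Submodule.mem_colon_singleton.2 (Ideal.mul_mem_right _ _ (Ideal.subset_span hi))))))
  rw [mem_span] at h0
  push Not at h0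
  obtain ⟨m, hm, h0⟩ := h0
  have h2 : ∀ i, X i * X i ∈ gens K → _ := fun i hi => (mem_span _).1 (h1 i hi)
    (Finsupp.single i 1 + m) (by rwa [mem_support_iff, coeff_X_mul, ← mem_support_iff])
  have h3 := h2 3 (by simp [gens])
  have h4 := h2 4 (by simp [gens])
  have h5 := h2 5 (by simp [gens])
  have e : m.degree = d := by
    by_contra e
    exact mem_support_iff.1 hm (hd.coeff_eq_zero e)
  rw [Finsupp.degree_eq_sum, Fin.sum_univ_six] at e
  simp at h3 h4 h5
  omega

theorem colon_one : (Ideal.span (gens K)).colon {X 3 * X 4 * X 5} = idealOfVars (Fin 6) K := by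
  have e : ∀ i, X i * (X 3 * X 4 * X 5) = monomial (Finsupp.single i 1 + (Finsupp.single 3 1 +
      Finsupp.single 4 1 + Finsupp.single 5 1 : Fin 6 →₀ ℕ)) (1 : K) := fun i => by
    simp only [X, monomial_mul, mul_one]
  refine colon_eq _ _ (fun h => ?_) fun i => ?_
  · have := (mem_span _).1 h (Finsupp.single 3 1 + Finsupp.single 4 1 + Finsupp.single 5 1)
      (by simp only [X, monomial_mul, mul_one, mem_support_iff, coeff_monomial]; simp)
    simp at this
  · rw [e, mem_span]
    intro m hm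
    obtain rfl := Finset.mem_singleton.1 (support_monomial_subset hm)
    fin_cases i <;> simp

theorem hom_pow (k : ℕ) : ((X 0 * X 1) ^ k * (X 0 * X 1 * X 2) : MvPolynomial (Fin 6) K).IsHomogeneous
    (2 * k + 3) :=
  (((isHomogeneous_X K _).mul (isHomogeneous_X K _)).pow k).mul
    (((isHomogeneous_X K _).mul (isHomogeneous_X K _)).mul (isHomogeneous_X K _))

theorem colon_pow (k : ℕ) : (Ideal.span (gens K) ^ (k + 2)).colon
    {(X 0 * X 1) ^ k * (X 0 * X 1 * X 2)} = idealOfVars (Fin 6) K := by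
  refine colon_eq _ _ (fun h => ?_) fun i => ?_
  · have := Ideal.pow_right_mono le_sq _ h
    rw [← pow_mul, mem_pow_idealOfVars_iff] at this
    obtain ⟨m, hm⟩ := support_nonempty.2
      (show ((X 0 * X 1) ^ k * (X 0 * X 1 * X 2) : MvPolynomial (Fin 6) K) ≠ 0 by simp)
    have e : m.degree = 2 * k + 3 := by
      by_contra e
      exact mem_support_iff.1 hm ((hom_pow k).coeff_eq_zero e)
    have := this m hm
    omega
  · rw [mul_left_comm, pow_add]
    refine Ideal.mul_mem_mul (Ideal.pow_mem_pow (Ideal.subset_span (by simp [gens])) k) ?_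
    have h : ∀ a ∈ gens K, ∀ b ∈ gens K, a * b ∈ Ideal.span (gens K) ^ 2 := fun a ha b hb => by
      rw [sq]
      exact Ideal.mul_mem_mul (Ideal.subset_span ha) (Ideal.subset_span hb)
    fin_cases i
    · convert h (X 0 * X 1) (by simp [gens]) (X 0 * X 2) (by simp [gens]) using 1
      simp only [Fin.zero_eta]
      ring
    · convert h (X 0 * X 1) (by simp [gens]) (X 1 * X 2) (by simp [gens]) using 1
      simp only [Fin.mk_one]
      ring
    · convert h (X 0 * X 2) (by simp [gens]) (X 1 * X 2) (by simp [gens]) using 1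
      simp only [Fin.reduceFinMk]
      ring
    · convert h (X 0 * X 3) (by simp [gens]) (X 1 * X 2) (by simp [gens]) using 1
      simp only [Fin.reduceFinMk]
      ring
    · convert h (X 1 * X 4) (by simp [gens]) (X 0 * X 2) (by simp [gens]) using 1
      simp only [Fin.reduceFinMk]
      ring
    · convert h (X 2 * X 5) (by simp [gens]) (X 0 * X 1) (by simp [gens]) using 1
      simp only [Fin.reduceFinMk]
      ring

end Pool.Agent.H.MP_a79530_al
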